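import Pool.Agent.helper18.HG.Spec

/-!
# MP_33a656_nt, row hg:FIX
-/

set_option autoImplicit false

namespace Pool.Agent.helper18.HG

open Finset

noncomputable def FIX_B (A : Polynomial (Polynomial ℤ)) (D E s : ℕ) : Polynomial ℤ :=
  ∑ i ∈ range (D + 1),
    Polynomial.C (∑ j ∈ range (E + 1), (A.coeff i).coeff j * (s : ℤ) ^ (E - j)) * Polynomial.X ^ i

theorem FIX_coeff (A : Polynomial (Polynomial ℤ)) (D E s i : ℕ) :
    (FIX_B A D E s).coeff i =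
      if i < D + 1 then ∑ j ∈ range (E + 1), (A.coeff i).coeff j * (s : ℤ) ^ (E - j) else 0 := by
  unfold FIX_B
  rw [Polynomial.finsetSum_coeff]
  simp only [Polynomial.coeff_C_mul_X_pow]
  by_cases h : i < D + 1
  · rw [if_pos h, Finset.sum_eq_single i]
    · simp
    · intro b _ hb
      rw [if_neg (Ne.symm hb)]
    · intro h'
      exact absurd (mem_range.mpr h) h'
  · rw [if_neg h]
    apply Finset.sum_eq_zero
    intro b hb
    rw [if_neg]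
    intro hib
    exact h (hib ▸ mem_range.mp hb)

theorem FIX_deg (A : Polynomial (Polynomial ℤ)) (D E s : ℕ) : (FIX_B A D E s).natDegree ≤ D := by
  rw [Polynomial.natDegree_le_iff_coeff_eq_zero]
  intro n hn
  rw [FIX_coeff, if_neg (by omega)]

theorem FIX_aeval (A : Polynomial (Polynomial ℤ)) (D E s : ℕ) (hs : 1 ≤ s) (hD : A.natDegree ≤ D)
    (hE : ∀ i, (A.coeff i).natDegree ≤ E) (v : ℂ) :
    Polynomial.aeval v (FIX_B A D E s) =
      (s : ℂ) ^ E * (A.sum fun i a => Polynomial.aeval ((((s : ℝ)⁻¹ : ℝ) : ℂ)) a * v ^ i) := by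
  have hs0 : (s : ℂ) ≠ 0 := by exact_mod_cast (by omega : s ≠ 0)
  rw [Polynomial.sum_over_range' A (by intro n; simp) (D + 1) (by omega)]
  unfold FIX_B
  rw [map_sum, Finset.mul_sum]
  apply Finset.sum_congr rfl
  intro i _
  rw [Polynomial.aeval_eq_sum_range' (p := A.coeff i) (n := E + 1) (by have := hE i; omega)]
  rw [map_mul, map_pow, Polynomial.aeval_X, Polynomial.aeval_C, ← mul_assoc]
  congr 1
  rw [Finset.mul_sum]
  simp only [eq_intCast, Int.cast_sum, Int.cast_mul, Int.cast_pow, Int.cast_natCast]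
  apply Finset.sum_congr rfl
  intro j hj
  have hj' : j ≤ E := by have := mem_range.mp hj; omega
  have h1 : (s : ℂ) ^ E = (s : ℂ) ^ (E - j) * (s : ℂ) ^ j := by
    rw [← pow_add]; congr 1; omega
  rw [h1, zsmul_eq_mul]
  push_cast
  rw [inv_pow]
  field_simp

theorem FIX_bound (A : Polynomial (Polynomial ℤ)) (D E s i : ℕ) (hs : 1 ≤ s) :
    |((FIX_B A D E s).coeff i : ℝ)| ≤
      (1 + ∑ i ∈ range (D + 1), ∑ j ∈ range (E + 1), |((A.coeff i).coeff j : ℝ)|) * (s : ℝ) ^ E := by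
  have hs1 : (1 : ℝ) ≤ (s : ℝ) := by exact_mod_cast hs
  have hnn : (0 : ℝ) ≤ ∑ i ∈ range (D + 1), ∑ j ∈ range (E + 1), |((A.coeff i).coeff j : ℝ)| :=
    Finset.sum_nonneg fun i _ => Finset.sum_nonneg fun j _ => abs_nonneg _
  rw [FIX_coeff]
  by_cases h : i < D + 1
  · rw [if_pos h]
    push_cast
    calc |∑ j ∈ range (E + 1), ((A.coeff i).coeff j : ℝ) * (s : ℝ) ^ (E - j)|
        ≤ ∑ j ∈ range (E + 1), |((A.coeff i).coeff j : ℝ) * (s : ℝ) ^ (E - j)| :=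
          Finset.abs_sum_le_sum_abs _ _
      _ ≤ ∑ j ∈ range (E + 1), |((A.coeff i).coeff j : ℝ)| * (s : ℝ) ^ E := by
          apply Finset.sum_le_sum
          intro j _
          rw [abs_mul, abs_of_nonneg (pow_nonneg (by linarith : (0:ℝ) ≤ s) (E - j))]
          apply mul_le_mul_of_nonneg_left _ (abs_nonneg _)
          exact pow_le_pow_right₀ hs1 (by omega)
      _ = (∑ j ∈ range (E + 1), |((A.coeff i).coeff j : ℝ)|) * (s : ℝ) ^ E := by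
          rw [Finset.sum_mul]
      _ ≤ _ := by
          apply mul_le_mul_of_nonneg_right _ (by positivity)
          have := Finset.single_le_sum
            (f := fun i => ∑ j ∈ range (E + 1), |((A.coeff i).coeff j : ℝ)|)
            (fun i _ => Finset.sum_nonneg fun j _ => abs_nonneg _) (mem_range.mpr h)
          linarith
  · rw [if_neg h]
    simp only [Int.cast_zero, abs_zero]
    positivity

theorem FIX_EV (c : ℕ → ℤ) (M : ℤ) (hc : ∀ n, |c n| ≤ M) : ∃ v, EV (PowerSeries.mk c) (1 / 2) v := by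
  have hS : Summable (fun n => ‖((PowerSeries.coeff n (PowerSeries.mk c) : ℤ) : ℂ) * (1 / 2 : ℂ) ^ n‖) := by
    have hg : Summable (fun n : ℕ => (M : ℝ) * (1 / 2 : ℝ) ^ n) :=
      (summable_geometric_of_lt_one (by norm_num) (by norm_num)).mul_left _
    apply Summable.of_nonneg_of_le (fun n => norm_nonneg _) _ hg
    intro n
    rw [PowerSeries.coeff_mk, norm_mul, norm_pow]
    have h1 : ‖((c n : ℤ) : ℂ)‖ ≤ (M : ℝ) := by
      rw [Complex.norm_intCast]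
      exact_mod_cast hc n
    have h2 : ‖(1 / 2 : ℂ)‖ = 1 / 2 := by
      rw [norm_div, norm_one]; norm_num
    rw [h2]
    exact mul_le_mul_of_nonneg_right h1 (by positivity)
  exact ⟨_, hS, hS.of_norm.hasSum⟩

theorem FIX (_hEVM : EVM_stmt) (hEVA : EVA_stmt) (hAUX : AUX_stmt) (hORD : ORD_stmt) (hLIO : LIO_stmt) : FIX_stmt := by
  intro c M hc hT d C K hK
  obtain ⟨A, hA0, hAD, hAE, hAc⟩ := hAUX (PowerSeries.mk c) (2 * d + 2) (2 * C + 2)
  have hF : ev (PowerSeries.mk c) A ≠ 0 := hT A hA0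
  obtain ⟨v0, hv0⟩ := FIX_EV c M hc
  obtain ⟨K₀, s₀, hK₀, hs₀⟩ := hORD (ev (PowerSeries.mk c) A)
    ((2 * d + 2 + 1) * (2 * C + 2 + 1) - 1) hF hAc ⟨_, hEVA _ _ _ A hv0⟩
  set K₂ : ℝ := 1 + ∑ i ∈ range (2 * d + 2 + 1), ∑ j ∈ range (2 * C + 2 + 1), |((A.coeff i).coeff j : ℝ)| with hK₂
  have hK₂1 : 1 ≤ K₂ := by
    have : (0 : ℝ) ≤ ∑ i ∈ range (2 * d + 2 + 1), ∑ j ∈ range (2 * C + 2 + 1), |((A.coeff i).coeff j : ℝ)| :=
      Finset.sum_nonneg fun i _ => Finset.sum_nonneg fun j _ => abs_nonneg _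
    linarith
  set K₄ : ℝ := K₀ * ((((2 * d + 2 : ℕ) : ℝ) + 1) * K₂) ^ d * (((d : ℝ) + 1) * K) ^ (2 * d + 2) with hK₄
  obtain ⟨s₁, hs₁⟩ := exists_nat_gt K₄
  refine ⟨max s₀ (max s₁ 1), ?_⟩
  intro s hs v hv P hP0 hPd hPc hPv
  have hsa : s₀ ≤ s := le_trans (le_max_left _ _) hs
  have hsb : s₁ ≤ s := le_trans (le_trans (le_max_left _ _) (le_max_right _ _)) hs
  have hsc : 1 ≤ s := le_trans (le_trans (le_max_right _ _) (le_max_right _ _)) hs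
  have hs1 : (1 : ℝ) ≤ (s : ℝ) := by exact_mod_cast hsc
  have hspos : (0 : ℝ) < (s : ℝ) := by linarith
  have hsK : K₄ < (s : ℝ) := lt_of_lt_of_le hs₁ (by exact_mod_cast hsb)
  obtain ⟨hne, hle⟩ := hs₀ s hsa _ (hEVA _ _ _ A hv)
  have hB := FIX_aeval A (2 * d + 2) (2 * C + 2) s hsc hAD hAE v
  set Fv : ℂ := A.sum fun i a => Polynomial.aeval ((((s : ℝ)⁻¹ : ℝ) : ℂ)) a * v ^ i with hFv
  have hsC0 : (s : ℂ) ≠ 0 := by exact_mod_cast (by omega : s ≠ 0)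
  have hB0 : Polynomial.aeval v (FIX_B A (2 * d + 2) (2 * C + 2) s) ≠ 0 := by
    rw [hB]
    exact mul_ne_zero (pow_ne_zero _ hsC0) hne
  have hL := hLIO P (FIX_B A (2 * d + 2) (2 * C + 2) s) v d (2 * d + 2) (K * (s : ℝ) ^ C)
    (K₂ * (s : ℝ) ^ (2 * C + 2)) hP0 hPv hB0 hPd (FIX_deg _ _ _ _)
    (by
      have : (1 : ℝ) ≤ (s : ℝ) ^ C := one_le_pow₀ hs1
      nlinarith)
    (by
      have : (1 : ℝ) ≤ (s : ℝ) ^ (2 * C + 2) := one_le_pow₀ hs1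
      nlinarith)
    hPc (fun i => FIX_bound A (2 * d + 2) (2 * C + 2) s i hsc)
  rw [hB, norm_mul, norm_pow, Complex.norm_natCast] at hL
  have hX0 : (0 : ℝ) ≤ ((((2 * d + 2 : ℕ) : ℝ) + 1) * K₂) ^ d := by positivity
  have hY0 : (0 : ℝ) ≤ (((d : ℝ) + 1) * K) ^ (2 * d + 2) := by positivity
  have e1 : ((((2 * d + 2 : ℕ) : ℝ) + 1) * (K₂ * (s : ℝ) ^ (2 * C + 2))) ^ d =
      ((((2 * d + 2 : ℕ) : ℝ) + 1) * K₂) ^ d * (s : ℝ) ^ ((2 * C + 2) * d) := by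
    rw [← mul_assoc, mul_pow _ ((s : ℝ) ^ (2 * C + 2)), ← pow_mul]
  have e2 : (((d : ℝ) + 1) * (K * (s : ℝ) ^ C)) ^ (2 * d + 2) =
      (((d : ℝ) + 1) * K) ^ (2 * d + 2) * (s : ℝ) ^ (C * (2 * d + 2)) := by
    rw [← mul_assoc, mul_pow _ ((s : ℝ) ^ C), ← pow_mul]
  rw [e1, e2] at hL
  set T : ℕ := (2 * d + 2 + 1) * (2 * C + 2 + 1) - 1 with hTdef
  set R : ℕ := (2 * C + 2) + (2 * C + 2) * d + C * (2 * d + 2) with hR
  have hTR : R + 1 ≤ T := by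
    have h1 : (2 * d + 2 + 1) * (2 * C + 2 + 1) = 4 * (C * d) + 6 * d + 6 * C + 9 := by ring
    have h2 : R = 4 * (C * d) + 4 * C + 2 + 2 * d := by rw [hR]; ring
    omega
  -- multiply by `s ^ T`
  have hmul : (s : ℝ) ^ T ≤ K₄ * (s : ℝ) ^ R := by
    have hsT : (0 : ℝ) ≤ (s : ℝ) ^ T := by positivity
    calc (s : ℝ) ^ T = (s : ℝ) ^ T * 1 := by ring
      _ ≤ (s : ℝ) ^ T * ((s : ℝ) ^ (2 * C + 2) * ‖Fv‖ *
            (((((2 * d + 2 : ℕ) : ℝ) + 1) * K₂) ^ d * (s : ℝ) ^ ((2 * C + 2) * d)) *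
            ((((d : ℝ) + 1) * K) ^ (2 * d + 2) * (s : ℝ) ^ (C * (2 * d + 2)))) :=
          mul_le_mul_of_nonneg_left hL hsT
      _ = (‖Fv‖ * (s : ℝ) ^ T) * (((((2 * d + 2 : ℕ) : ℝ) + 1) * K₂) ^ d *
            (((d : ℝ) + 1) * K) ^ (2 * d + 2) *
            ((s : ℝ) ^ (2 * C + 2) * (s : ℝ) ^ ((2 * C + 2) * d) * (s : ℝ) ^ (C * (2 * d + 2)))) := by
          ring
      _ = (‖Fv‖ * (s : ℝ) ^ T) * (((((2 * d + 2 : ℕ) : ℝ) + 1) * K₂) ^ d *
            (((d : ℝ) + 1) * K) ^ (2 * d + 2) * (s : ℝ) ^ R) := by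
          rw [← pow_add, ← pow_add]
      _ ≤ K₀ * (((((2 * d + 2 : ℕ) : ℝ) + 1) * K₂) ^ d *
            (((d : ℝ) + 1) * K) ^ (2 * d + 2) * (s : ℝ) ^ R) :=
          mul_le_mul_of_nonneg_right hle (by positivity)
      _ = K₄ * (s : ℝ) ^ R := by rw [hK₄]; ring
  have hlt : K₄ * (s : ℝ) ^ R < (s : ℝ) ^ T := by
    calc K₄ * (s : ℝ) ^ R < (s : ℝ) * (s : ℝ) ^ R :=
          mul_lt_mul_of_pos_right hsK (by positivity)
      _ = (s : ℝ) ^ (R + 1) := by rw [pow_succ]; ring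
      _ ≤ (s : ℝ) ^ T := pow_le_pow_right₀ hs1 hTR
  exact absurd hmul (not_le.mpr hlt)

end Pool.Agent.helper18.HG
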